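import Mathlib
import Pool.Agent.H484R3.CircB

/-!
MP_7b68b9_co: the local version of the Hadwiger conjecture, for vertex-transitive graphs of prime order with independence number at
most two.
-/

set_option autoImplicit false

namespace Pool.Agent.Results.MP_7b68b9_co.VertexTransitivePrime

/-- `K_k` is a minor of `G`: there are `k` pairwise disjoint vertex sets, each inducing a connected
subgraph, any two of them joined by an edge of `G`. -/
def HasCliqueMinor {V : Type} (G : SimpleGraph V) (k : ℕ) : Prop :=
  ∃ f : Fin k → Set V,
    (∀ i, (G.induce (f i)).Connected) ∧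
    (∀ i j, i ≠ j → Disjoint (f i) (f j)) ∧
    (∀ i j, i ≠ j → ∃ u ∈ f i, ∃ v ∈ f j, G.Adj u v)

/-- Let `G` be a vertex-transitive graph with a prime number of vertices and without three pairwise
nonadjacent vertices. If `G` has no `K_(t+1)` minor, then some vertex has a closed neighbourhood which induces a `t`-colourable subgraph. -/
theorem result (V : Type) [Fintype V] (G : SimpleGraph V) (hp : (Fintype.card V).Prime)
    (htr : ∀ x y : V, ∃ φ : G ≃g G, φ x = y)
    (hα : ∀ x y z : V, x ≠ y → y ≠ z → x ≠ z → G.Adj x y ∨ G.Adj y z ∨ G.Adj x z)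
    (t : ℕ) (hminor : ¬ HasCliqueMinor G (t + 1)) :
    ∃ v : V, (G.induce (insert v (G.neighborSet v))).Colorable t := by
  obtain ⟨v, -, h2⟩ := H484R3.Circ.exists_group hp htr hα hminor
  exact ⟨v, h2⟩

end Pool.Agent.Results.MP_7b68b9_co.VertexTransitivePrime
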